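import Pool.Agent.H867.FT.Gen2
import Pool.Agent.H707.FT867PSG

/-!
Project FT of helper867, statement RDC (helper21).
-/

set_option autoImplicit false
set_option linter.unusedSectionVars false

namespace Pool.Agent.H21.FT867

open Pool.Agent.H867.FT Pool.Agent.H707.FT867

section forms

variable {k : Type} [Field k] {n : ℕ}

/-- the form of degree `e` of a power series -/
noncomputable def frm (e : ℕ) (c : MvPowerSeries (Fin n) k) : MvPolynomial (Fin n) k :=
  ∑ m ∈ Finset.finsuppAntidiag Finset.univ e, MvPolynomial.monomial m (MvPowerSeries.coeff m c)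

lemma mem_anti {m : Fin n →₀ ℕ} {e : ℕ} :
    m ∈ Finset.finsuppAntidiag Finset.univ e ↔ ∑ i, m i = e := by
  rw [Finset.mem_finsuppAntidiag]
  exact ⟨fun h => h.1, fun h => ⟨h, Finset.subset_univ _⟩⟩

lemma deg_eq (m : Fin n →₀ ℕ) : m.degree = ∑ i, m i := by
  rw [Finsupp.degree_eq_sum]

lemma coeff_frm (e : ℕ) (c : MvPowerSeries (Fin n) k) (m : Fin n →₀ ℕ) (hm : m.degree = e) :
    MvPolynomial.coeff m (frm e c) = MvPowerSeries.coeff m c := by
  classical
  rw [frm, MvPolynomial.coeff_sum, Finset.sum_eq_single m]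
  · rw [MvPolynomial.coeff_monomial, if_pos rfl]
  · intro b _ hb
    rw [MvPolynomial.coeff_monomial, if_neg hb]
  · intro h
    exact absurd (mem_anti.2 ((deg_eq m).symm.trans hm)) h

lemma eval_frm (e : ℕ) (c : MvPowerSeries (Fin n) k) (v : Fin n → k) :
    MvPolynomial.eval v (frm e c) =
      ∑ m ∈ Finset.finsuppAntidiag Finset.univ e, MvPowerSeries.coeff m c * ∏ i, v i ^ m i := by
  rw [frm, map_sum]
  refine Finset.sum_congr rfl fun m _ => ?_
  rw [MvPolynomial.eval_monomial, Finsupp.prod_fintype _ _ (fun i => pow_zero _)]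

/-- the transformed form -/
noncomputable def Qf (A : Matrix (Fin n) (Fin n) k) (e : ℕ) (c : MvPowerSeries (Fin n) k) :
    MvPolynomial (Fin n) k :=
  ∑ m ∈ Finset.finsuppAntidiag Finset.univ e, MvPolynomial.C (MvPowerSeries.coeff m c) *
    ∏ i, (∑ j, MvPolynomial.C (A i j) * MvPolynomial.X j) ^ m i

lemma Qf_hom (A : Matrix (Fin n) (Fin n) k) (e : ℕ) (c : MvPowerSeries (Fin n) k) :
    (Qf A e c).IsHomogeneous e := by
  refine MvPolynomial.IsHomogeneous.sum _ _ _ fun m hm => ?_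
  rw [← zero_add e]
  refine (MvPolynomial.isHomogeneous_C _ _).mul ?_
  have h1 : e = ∑ i, 1 * m i := by
    simp only [one_mul]
    exact (mem_anti.1 hm).symm
  rw [h1]
  refine MvPolynomial.IsHomogeneous.prod _ _ _ fun i _ => ?_
  refine MvPolynomial.IsHomogeneous.pow ?_ _
  refine MvPolynomial.IsHomogeneous.sum _ _ _ fun j _ => ?_
  rw [← zero_add 1]
  exact (MvPolynomial.isHomogeneous_C _ _).mul (MvPolynomial.isHomogeneous_X _ _)

lemma coeff_single_eval {Q : MvPolynomial (Fin n) k} {e : ℕ} (hQ : Q.IsHomogeneous e)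
    (i : Fin n) : MvPolynomial.coeff (Finsupp.single i e) Q =
      MvPolynomial.eval (Pi.single i 1) Q := by
  classical
  rw [MvPolynomial.eval_eq', Finset.sum_eq_single (Finsupp.single i e)]
  · rw [Finset.prod_eq_one, mul_one]
    intro j _
    by_cases hj : j = i
    · subst hj
      rw [Pi.single_eq_same, one_pow]
    · rw [Finsupp.single_eq_of_ne hj, pow_zero]
  · intro m hm hne
    have hdeg : m.degree = e := by
      have := hQ (MvPolynomial.mem_support_iff.1 hm)
      rw [← this, Finsupp.degree_eq_weight_one]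
      rfl
    have hex : ∃ j, j ≠ i ∧ m j ≠ 0 := by
      by_contra hcon
      push Not at hcon
      apply hne
      ext j
      by_cases hj : j = i
      · subst hj
        rw [Finsupp.single_eq_same, ← hdeg, deg_eq, Finset.sum_eq_single j]
        · intro l _ hl
          exact hcon l hl
        · intro h
          exact absurd (Finset.mem_univ _) h
      · rw [Finsupp.single_eq_of_ne hj, hcon j hj]
    obtain ⟨j, hj, hmj⟩ := hex
    rw [Finset.prod_eq_zero (Finset.mem_univ j), mul_zero]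
    rw [Pi.single_eq_of_ne hj, zero_pow hmj]
  · intro h
    rw [MvPolynomial.notMem_support_iff.1 h, zero_mul]

lemma coeff_Qf (A : Matrix (Fin n) (Fin n) k) (e : ℕ) (c : MvPowerSeries (Fin n) k)
    (l : Fin n) : MvPolynomial.coeff (Finsupp.single l e) (Qf A e c) =
      MvPolynomial.eval (fun i => A i l) (frm e c) := by
  classical
  rw [coeff_single_eval (Qf_hom A e c), eval_frm, Qf, map_sum]
  refine Finset.sum_congr rfl fun m _ => ?_
  rw [map_mul, MvPolynomial.eval_C, map_prod]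
  congr 1
  refine Finset.prod_congr rfl fun i _ => ?_
  rw [map_pow, map_sum]
  congr 1
  rw [Finset.sum_eq_single l]
  · rw [map_mul, MvPolynomial.eval_C, MvPolynomial.eval_X, Pi.single_eq_same, mul_one]
  · intro j _ hj
    rw [map_mul, MvPolynomial.eval_X, Pi.single_eq_of_ne hj, mul_zero]
  · intro h
    exact absurd (Finset.mem_univ _) h

lemma Qf_last (A : Matrix (Fin n) (Fin n) k) (e : ℕ) (c : MvPowerSeries (Fin n) k)
    (t : Fin n) (hA : ∀ i, i ≠ t → A i t = 0)
    (hc : ∀ m : Fin n →₀ ℕ, m t ≠ 0 → MvPowerSeries.coeff m c = 0)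
    (m : Fin n →₀ ℕ) (hm : m t ≠ 0) : MvPolynomial.coeff m (Qf A e c) = 0 := by
  classical
  have hS : Qf A e c ∈ MvPolynomial.supported k {i : Fin n | i ≠ t} := by
    refine Subalgebra.sum_mem _ fun m' _ => ?_
    by_cases h : m' t = 0
    · refine Subalgebra.mul_mem _ (Subalgebra.algebraMap_mem _ _) ?_
      refine Subalgebra.prod_mem _ fun i _ => ?_
      by_cases hi : i = t
      · subst hi
        rw [h, pow_zero]
        exact Subalgebra.one_mem _
      · refine Subalgebra.pow_mem _ (Subalgebra.sum_mem _ fun j _ => ?_) _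
        by_cases hj : j = t
        · subst hj
          rw [hA i hi, map_zero, zero_mul]
          exact Subalgebra.zero_mem _
        · exact Subalgebra.mul_mem _ (Subalgebra.algebraMap_mem _ _)
            (MvPolynomial.X_mem_supported.2 hj)
    · rw [hc m' h, map_zero, zero_mul]
      exact Subalgebra.zero_mem _
  by_contra hne
  have h1 : t ∈ (Qf A e c).vars := by
    rw [MvPolynomial.mem_vars_iff_mem_support]
    exact ⟨m, MvPolynomial.mem_support_iff.2 hne, Finsupp.mem_support_iff.2 hm⟩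
  exact (MvPolynomial.mem_supported.1 hS h1) rfl

lemma exists_pt [Infinite k] {Q : MvPolynomial (Fin n) k} (hQ : Q ≠ 0) (l : Fin n) :
    ∃ v : Fin n → k, MvPolynomial.eval v Q ≠ 0 ∧ v l ≠ 0 := by
  by_contra hcon
  push Not at hcon
  have h : Q * MvPolynomial.X l = 0 := by
    apply MvPolynomial.funext
    intro v
    rw [map_mul, MvPolynomial.eval_X, map_zero]
    by_cases hv : MvPolynomial.eval v Q = 0
    · rw [hv, zero_mul]
    · rw [hcon v hv, mul_zero]
  rcases mul_eq_zero.1 h with h | h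
  · exact hQ h
  · exact MvPolynomial.X_ne_zero l h

lemma mat_inv (l : Fin n) (v : Fin n → k) (hv : v l ≠ 0) :
    ∃ B : Matrix (Fin n) (Fin n) k, (1 : Matrix (Fin n) (Fin n) k).updateCol l v * B = 1 ∧
      B * (1 : Matrix (Fin n) (Fin n) k).updateCol l v = 1 := by
  have hdet : ((1 : Matrix (Fin n) (Fin n) k).updateCol l v).det = v l := by
    rw [← Matrix.cramer_apply, Matrix.cramer_one]
    rfl
  have hu : IsUnit ((1 : Matrix (Fin n) (Fin n) k).updateCol l v).det := by
    rw [hdet]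
    exact isUnit_iff_ne_zero.2 hv
  exact ⟨_, Matrix.mul_nonsing_inv _ hu, Matrix.nonsing_inv_mul _ hu⟩

/-- the order of a nonzero series -/
lemma exists_ord {c : MvPowerSeries (Fin n) k} (hc : c ≠ 0) :
    ∃ e : ℕ, c ∈ IsLocalRing.maximalIdeal (MvPowerSeries (Fin n) k) ^ e ∧ frm e c ≠ 0 := by
  have h1 : (c.order.toNat : ℕ∞) = c.order := MvPowerSeries.ne_zero_iff_order_finite.1 hc
  refine ⟨c.order.toNat, mem_pow _ _ h1.le, ?_⟩
  obtain ⟨m, hm, hd⟩ := MvPowerSeries.exists_coeff_ne_zero_and_order h1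
  intro h0
  apply hm
  have h2 : m.degree = c.order.toNat := by
    have h3 : ((m.degree : ℕ) : ℕ∞) = (c.order.toNat : ℕ∞) := by rw [h1, hd]
    exact_mod_cast h3
  rw [← coeff_frm _ c m h2, h0, MvPolynomial.coeff_zero]

end forms

section transport

section abs

variable {P : Type} [CommRing P] [IsLocalRing P]

lemma max_mem (σ : P ≃+* P) {x : P} {N : ℕ} (hx : x ∈ IsLocalRing.maximalIdeal P ^ N) :
    σ x ∈ IsLocalRing.maximalIdeal P ^ N := by
  have h1 : (IsLocalRing.maximalIdeal P).map (σ : P →+* P) ≤ IsLocalRing.maximalIdeal P := by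
    rw [Ideal.map_le_iff_le_comap]
    intro y hy
    rw [Ideal.mem_comap, IsLocalRing.mem_maximalIdeal, mem_nonunits_iff]
    rw [IsLocalRing.mem_maximalIdeal, mem_nonunits_iff] at hy
    intro h
    apply hy
    have h2 := h.map (σ.symm : P →+* P)
    have h3 : (σ.symm : P →+* P) ((σ : P →+* P) y) = y := σ.symm_apply_apply y
    rwa [h3] at h2
  have h2 := Ideal.mem_map_of_mem (σ : P →+* P) hx
  rw [Ideal.map_pow] at h2
  exact Ideal.pow_right_mono h1 N h2

lemma span_map (σ : P ≃+* P) (c₁ c₂ c' : P) (h : c' ∈ Ideal.span {c₁, c₂}) :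
    σ c' ∈ Ideal.span {σ c₁, σ c₂} := by
  have h4 := Ideal.mem_map_of_mem (σ : P →+* P) h
  rw [Ideal.map_span, Set.image_pair] at h4
  exact h4

/-- divisibility is transported -/
lemma dvd_transport (σ : P ≃+* P) (c₁ c₂ : P) (h : ∀ u, c₁ ∣ c₂ * u → c₁ ∣ u) :
    ∀ u, σ c₁ ∣ σ c₂ * u → σ c₁ ∣ u := by
  intro u hu
  have h1 : σ c₁ ∣ σ (c₂ * σ.symm u) := by
    rw [map_mul, RingEquiv.apply_symm_apply]
    exact hu
  have h2 := h _ ((map_dvd_iff σ).1 h1)
  have h3 := (map_dvd_iff σ).2 h2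
  rwa [RingEquiv.apply_symm_apply] at h3

lemma transport_abs (p : ℕ) [Fact p.Prime] [CharP P p] (d n : ℕ) (X : Fin n → P)
    (b : Fin n → Fin n → P) (σ : P ≃+* P) (hX : ∀ i, X i = ∑ j, b i j * σ (X j)) (c₁ c₂ : P)
    (h : ∃ r : ℕ, ∀ e : ℕ, IsLocalRing.maximalIdeal P ^ (r + d * (p ^ e - 1)) ≤
      Ideal.span {σ c₁, σ c₂} ⊔ Ideal.span (Set.range fun i : Fin n => X i ^ (p ^ e))) :
    ∃ r : ℕ, ∀ e : ℕ, IsLocalRing.maximalIdeal P ^ (r + d * (p ^ e - 1)) ≤
      Ideal.span {c₁, c₂} ⊔ Ideal.span (Set.range fun i : Fin n => X i ^ (p ^ e)) := by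
  obtain ⟨r, hr⟩ := h
  refine ⟨r, fun e x hx => ?_⟩
  have hIle : Ideal.span (Set.range fun i : Fin n => X i ^ (p ^ e)) ≤
      (Ideal.span (Set.range fun i : Fin n => X i ^ (p ^ e))).map (σ : P →+* P) := by
    conv_lhs => rw [Ideal.span]
    rw [Submodule.span_le]
    rintro _ ⟨i, rfl⟩
    change X i ^ (p ^ e) ∈
      (Ideal.span (Set.range fun i : Fin n => X i ^ (p ^ e))).map (σ : P →+* P)
    have h1 : X i ^ (p ^ e) = ∑ j, (b i j) ^ (p ^ e) * (σ : P →+* P) (X j ^ (p ^ e)) := by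
      conv_lhs => rw [hX i]
      rw [sum_pow_char_pow]
      refine Finset.sum_congr rfl fun j _ => ?_
      rw [mul_pow]
      congr 1
      exact (map_pow σ (X j) (p ^ e)).symm
    rw [h1]
    refine Ideal.sum_mem _ fun j _ => ?_
    exact Ideal.mul_mem_left _ _ (Ideal.mem_map_of_mem (σ : P →+* P) (Ideal.subset_span ⟨j, rfl⟩))
  have h3 : Ideal.span {σ c₁, σ c₂} ⊔ Ideal.span (Set.range fun i : Fin n => X i ^ (p ^ e)) ≤
      (Ideal.span {c₁, c₂} ⊔ Ideal.span (Set.range fun i : Fin n => X i ^ (p ^ e))).map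
        (σ : P →+* P) := by
    rw [Ideal.map_sup]
    refine sup_le_sup ?_ hIle
    rw [Ideal.span_le]
    rintro _ (rfl | rfl)
    · exact Ideal.mem_map_of_mem (σ : P →+* P) (Ideal.subset_span (Or.inl rfl))
    · exact Ideal.mem_map_of_mem (σ : P →+* P) (Ideal.subset_span (Or.inr rfl))
  have h4 := h3 (hr e (max_mem σ hx))
  obtain ⟨y, hy, hyx⟩ := (Ideal.mem_map_of_equiv σ _).1 h4
  have : y = x := σ.injective hyx
  rwa [this] at hy

end abs

variable {k : Type} [Field k] {n : ℕ}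

/-- the conclusion of `S_RDC` -/
def Goal (p d : ℕ) (c₁ c₂ : MvPowerSeries (Fin n) k) : Prop :=
  ∃ r : ℕ, ∀ e : ℕ,
    IsLocalRing.maximalIdeal (MvPowerSeries (Fin n) k) ^ (r + d * (p ^ e - 1)) ≤
      Ideal.span {c₁, c₂} ⊔ Ideal.span (Set.range fun i : Fin n =>
        (MvPowerSeries.X i : MvPowerSeries (Fin n) k) ^ (p ^ e))

lemma X_eq (A B : Matrix (Fin n) (Fin n) k)
    (hBA : B * A = 1) (Y : Fin n → MvPowerSeries (Fin n) k)
    (hY : ∀ i, Y i = ∑ j, MvPowerSeries.C (A i j) * MvPowerSeries.X j) (i : Fin n) :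
    (MvPowerSeries.X i : MvPowerSeries (Fin n) k) = ∑ j, MvPowerSeries.C (B i j) * Y j := by
  classical
  have h1 : ∑ j, MvPowerSeries.C (B i j) * Y j =
      ∑ l, (∑ j, MvPowerSeries.C (B i j * A j l)) * (MvPowerSeries.X l :
        MvPowerSeries (Fin n) k) := by
    simp only [hY, Finset.mul_sum, Finset.sum_mul]
    rw [Finset.sum_comm]
    refine Finset.sum_congr rfl fun l _ => Finset.sum_congr rfl fun j _ => ?_
    rw [map_mul, mul_assoc]
  rw [h1, Finset.sum_eq_single i]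
  · rw [← map_sum]
    have h2 : ∑ j, B i j * A j i = 1 := by
      have := congrFun (congrFun hBA i) i
      rwa [Matrix.mul_apply, Matrix.one_apply_eq] at this
    rw [h2, map_one, one_mul]
  · intro l _ hl
    rw [← map_sum]
    have h2 : ∑ j, B i j * A j l = 0 := by
      have := congrFun (congrFun hBA i) l
      rwa [Matrix.mul_apply, Matrix.one_apply_ne (Ne.symm hl)] at this
    rw [h2, map_zero, zero_mul]
  · intro h
    exact absurd (Finset.mem_univ _) h

/-- transport along a linear change of variables -/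
lemma transport (p : ℕ) [Fact p.Prime] [CharP k p] (d : ℕ) (A B : Matrix (Fin n) (Fin n) k)
    (hBA : B * A = 1) (σ : MvPowerSeries (Fin n) k ≃+* MvPowerSeries (Fin n) k)
    (hσ : ∀ i, σ (MvPowerSeries.X i) = ∑ j, MvPowerSeries.C (A i j) * MvPowerSeries.X j)
    (c₁ c₂ : MvPowerSeries (Fin n) k) (h : Goal p d (σ c₁) (σ c₂)) : Goal p d c₁ c₂ := by
  have hchar : CharP (MvPowerSeries (Fin n) k) p :=
    charP_of_injective_ringHom (f := (MvPowerSeries.C : k →+* MvPowerSeries (Fin n) k))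
      MvPowerSeries.C_injective p
  exact transport_abs p d n (fun i => (MvPowerSeries.X i : MvPowerSeries (Fin n) k))
    (fun i j => MvPowerSeries.C (B i j)) σ
    (fun i => X_eq A B hBA (fun i => σ (MvPowerSeries.X i)) hσ i) c₁ c₂ h

end transport

section main

/-- the case where a power of the last variable occurs in the initial form of `c₁` -/
lemma step2 (h1 : S_AUT) (h2 : S_WEI) (h3 : S_GRD) (p : ℕ) [Fact p.Prime] (k : Type) [Field k]
    [Infinite k] [CharP k p] (d : ℕ) (c₁ c₂ : MvPowerSeries (Fin (d + 2)) k) (e₁ : ℕ)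
    (hm : c₁ ∈ IsLocalRing.maximalIdeal (MvPowerSeries (Fin (d + 2)) k) ^ e₁)
    (hc : MvPowerSeries.coeff (Finsupp.single (Fin.last (d + 1)) e₁) c₁ ≠ 0)
    (hreg : ∀ u, c₁ ∣ c₂ * u → c₁ ∣ u) : Goal p d c₁ c₂ := by
  classical
  obtain ⟨c', hc'0, hc'l, hc's⟩ := h2 k (d + 1) e₁ c₁ c₂ hc hreg
  obtain ⟨e₂, hm2, hf2⟩ := exists_ord hc'0
  obtain ⟨v, hv1, hv2⟩ := exists_pt hf2 (Fin.last d).castSucc
  obtain ⟨B, hAB, hBA⟩ := mat_inv (Fin.last d).castSucc v hv2
  set A := (1 : Matrix (Fin (d + 2)) (Fin (d + 2)) k).updateCol (Fin.last d).castSucc v with hA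
  obtain ⟨σ, hσ1, hσ2⟩ := h1 k (d + 2) A B hAB hBA
  have hne : (Fin.last (d + 1)) ≠ (Fin.last d).castSucc := (Fin.castSucc_lt_last _).ne'
  have hAlast : ∀ i, A i (Fin.last (d + 1)) = (1 : Matrix (Fin (d + 2)) (Fin (d + 2)) k) i
      (Fin.last (d + 1)) := fun i => by
    rw [hA, Matrix.updateCol_ne hne]
  have hAd : (fun i => A i (Fin.last d).castSucc) = v := by
    funext i
    rw [hA, Matrix.updateCol_self]
  have q1 : MvPowerSeries.coeff (Finsupp.single (Fin.last (d + 1)) e₁) (σ c₁) ≠ 0 := by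
    rw [hσ2 c₁ e₁ hm _ (by rw [Finsupp.degree_single])]
    change MvPolynomial.coeff _ (Qf A e₁ c₁) ≠ 0
    rw [coeff_Qf]
    have h4 : (fun i => A i (Fin.last (d + 1))) = Pi.single (Fin.last (d + 1)) 1 := by
      funext i
      rw [hAlast i, Matrix.one_apply, Pi.single_apply]
    rw [h4]
    have h5 : (frm e₁ c₁).IsHomogeneous e₁ := by
      refine MvPolynomial.IsHomogeneous.sum _ _ _ fun m hm => ?_
      refine MvPolynomial.isHomogeneous_monomial _ ?_
      rw [deg_eq]
      exact mem_anti.1 hm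
    rw [← coeff_single_eval h5, coeff_frm _ _ _ (by rw [Finsupp.degree_single])]
    exact hc
  have q2 : MvPowerSeries.coeff (Finsupp.single (Fin.last d).castSucc e₂) (σ c') ≠ 0 := by
    rw [hσ2 c' e₂ hm2 _ (by rw [Finsupp.degree_single])]
    change MvPolynomial.coeff _ (Qf A e₂ c') ≠ 0
    rw [coeff_Qf, hAd]
    exact hv1
  have q3 : ∀ i j : ℕ, i + j = e₂ → j ≠ 0 → MvPowerSeries.coeff
      (Finsupp.single (Fin.last d).castSucc i + Finsupp.single (Fin.last (d + 1)) j) (σ c') = 0 := by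
    intro i j hij hj
    rw [hσ2 c' e₂ hm2 _ (by rw [map_add, Finsupp.degree_single, Finsupp.degree_single, hij])]
    refine Qf_last A e₂ c' (Fin.last (d + 1)) ?_ hc'l _ ?_
    · intro i hi
      rw [hAlast i, Matrix.one_apply_ne hi]
    · rw [Finsupp.add_apply, Finsupp.single_eq_same, Finsupp.single_eq_of_ne hne, zero_add]
      exact hj
  refine transport p d A B hBA σ hσ1 c₁ c₂ ⟨e₁ + e₂ + 1, fun e => ?_⟩
  refine (h3 k d e₁ e₂ (p ^ e) (σ c₁) (σ c') (Nat.one_le_pow _ _ (Fact.out : p.Prime).pos)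
    (max_mem σ hm) q1 (max_mem σ hm2) q2 q3).trans ?_
  refine sup_le_sup_right ?_ _
  rw [Ideal.span_le]
  rintro _ (rfl | rfl)
  · exact Ideal.subset_span (Or.inl rfl)
  · exact span_map σ c₁ c₂ c' hc's

theorem rdc (h1 : S_AUT) (h2 : S_WEI) (h3 : S_GRD) : S_RDC := by
  intro p _ k _ _ _ d c₁ c₂ hc1 hreg
  obtain ⟨e₁, hm1, hf1⟩ := exists_ord hc1
  obtain ⟨v, hv1, hv2⟩ := exists_pt hf1 (Fin.last (d + 1))
  obtain ⟨B, hAB, hBA⟩ := mat_inv (Fin.last (d + 1)) v hv2
  set A := (1 : Matrix (Fin (d + 2)) (Fin (d + 2)) k).updateCol (Fin.last (d + 1)) v with hA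
  obtain ⟨σ, hσ1, hσ2⟩ := h1 k (d + 2) A B hAB hBA
  have hAd : (fun i => A i (Fin.last (d + 1))) = v := by
    funext i
    rw [hA, Matrix.updateCol_self]
  have q1 : MvPowerSeries.coeff (Finsupp.single (Fin.last (d + 1)) e₁) (σ c₁) ≠ 0 := by
    rw [hσ2 c₁ e₁ hm1 _ (by rw [Finsupp.degree_single])]
    change MvPolynomial.coeff _ (Qf A e₁ c₁) ≠ 0
    rw [coeff_Qf, hAd]
    exact hv1
  exact transport p d A B hBA σ hσ1 c₁ c₂
    (step2 h1 h2 h3 p k d (σ c₁) (σ c₂) e₁ (max_mem σ hm1) q1 (dvd_transport σ c₁ c₂ hreg))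

end main

end Pool.Agent.H21.FT867
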