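import Mathlib
import Pool.Agent.H812.Gi.Spec
import Pool.Graph.R_seed8.W811.Dos.CP1

/-!
Local transport of measures (part `GMeas` of the project `Gi`).
-/

set_option autoImplicit false

open Filter Topology Set MeasureTheory
open scoped ENNReal NNReal

namespace Pool.Agent.H21.GiMeas

open Pool.Agent.W811.Stu Pool.Agent.H812.Tm Pool.Agent.W811.Dos Pool.Agent.H812.Gi

/-- a null interval -/
lemma null_case {Z : ℕ → Finset ℝ} {μ : Measure ℝ} (hμ : IsProbabilityMeasure μ)
    (hL : Lim Z μ) {E0 η : ℝ} (hη : 0 < η) {M0 : ℕ}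
    (h : ∀ M ≥ M0, ∀ s ∈ Z M, η ≤ |s - E0|) : μ (Ioo (E0 - η) (E0 + η)) = 0 := by
  set g : ℝ → ℝ := fun x => max 0 (η - |x - E0|) with hg
  have hgc : Continuous g := by
    rw [hg]; fun_prop
  have h0 : ∫ x, g x ∂μ = 0 := by
    refine tendsto_nhds_unique (hL g hgc) ?_
    refine tendsto_const_nhds.congr' ?_
    filter_upwards [eventually_ge_atTop M0] with m hm
    unfold av
    rw [Finset.sum_eq_zero, zero_div]
    intro x hx
    have := h m hm x hx
    show max 0 (η - |x - E0|) = 0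
    exact max_eq_left (by linarith)
  have hnn : ∀ x, 0 ≤ g x := fun x => le_max_left _ _
  have hint : Integrable g μ := by
    refine Integrable.of_bound hgc.aestronglyMeasurable η (Eventually.of_forall fun x => ?_)
    rw [Real.norm_eq_abs, abs_of_nonneg (hnn x)]
    exact max_le hη.le (by linarith [abs_nonneg (x - E0)])
  have h1 := (integral_eq_zero_iff_of_nonneg hnn hint).1 h0
  refine measure_mono_null ?_ h1
  intro x hx hcon
  have h2 : g x = 0 := hcon
  have h3 : |x - E0| < η := abs_lt.2 ⟨by linarith [hx.1], by linarith [hx.2]⟩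
  have h4 : η - |x - E0| ≤ g x := le_max_right _ _
  linarith

/-- the local coupling -/
lemma coup {Z W : ℕ → Finset ℝ} {μ ν : Measure ℝ} {B C0 C E0 η : ℝ}
    (hμ : IsProbabilityMeasure μ) (hν : IsProbabilityMeasure ν) (hZ : ∀ m, (Z m).Nonempty)
    (hZB : ∀ m, ∀ x ∈ Z m, |x| ≤ B) (hWB : ∀ m, ∀ x ∈ W m, |x| ≤ B)
    (hcard : ∀ m, ((W m).card : ℝ) ≤ C0 * (Z m).card) (hLμ : Lim Z μ) (hLν : Lim W ν)
    (h : ℕ → ℝ → ℝ) (hh : ∀ m, ∀ s ∈ Z m, |s - E0| < η → h m s ∈ W m)
    (hlip : ∀ m, ∀ s ∈ Z m, |s - E0| < η → ∀ s' ∈ Z m, |s' - E0| < η →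
      |s - s'| ≤ C * |h m s - h m s'|) :
    ∃ π : Measure (ℝ × ℝ), IsProbabilityMeasure π ∧ π.map Prod.fst = μ ∧
      (∀ S : Set ℝ, MeasurableSet S → ν Sᶜ = 0 →
        π {p | |p.1 - E0| < η ∧ p.2 ∉ S} = 0) ∧
      ∃ R : Set (ℝ × ℝ), π Rᶜ = 0 ∧ ∀ p ∈ R, ∀ p' ∈ R, |p.1 - E0| < η → |p'.1 - E0| < η →
        |p.1 - p'.1| ≤ C * |p.2 - p'.2| := by
  classical
  have hB : 0 ≤ B := by
    obtain ⟨x, hx⟩ := hZ 0
    exact (abs_nonneg x).trans (hZB 0 x hx)
  have hC0 : 0 ≤ C0 := by
    have h1 : (0:ℝ) < (Z 0).card := by exact_mod_cast Finset.card_pos.2 (hZ 0)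
    have h2 : (0:ℝ) ≤ C0 * (Z 0).card := le_trans (Nat.cast_nonneg _) (hcard 0)
    by_contra hcon
    push Not at hcon
    nlinarith
  set ι : ℕ → ℝ → ℝ := fun m x => if |x - E0| < η then h m x else B + 1 with hι
  have hι1 : ∀ m x, |x - E0| < η → ι m x = h m x := fun m x hx => if_pos hx
  have hι2 : ∀ m x, ¬ |x - E0| < η → ι m x = B + 1 := fun m x hx => if_neg hx
  have hp : ∀ m, IsProbabilityMeasure (um (Z m) (fun x => (x, ι m x))) := fun m => um_prob (hZ m) _
  set P : ℕ → ProbabilityMeasure (ℝ × ℝ) := fun m => ⟨um (Z m) (fun x => (x, ι m x)), hp m⟩ with hP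
  have hPm : ∀ m, (P m : Measure (ℝ × ℝ)) = um (Z m) (fun x => (x, ι m x)) := fun m => rfl
  have hιB : ∀ m, ∀ x ∈ Z m, ι m x ∈ Icc (-B) (B + 1) := by
    intro m x hx
    by_cases hc : |x - E0| < η
    · rw [hι1 m x hc]
      have := abs_le.1 (hWB m _ (hh m x hx hc))
      exact ⟨this.1, by linarith [this.2]⟩
    · rw [hι2 m x hc]
      exact ⟨by linarith, le_rfl⟩
  obtain ⟨φ, π, hφ, hlim⟩ := exists_sub P (K := Icc (-B) B ×ˢ Icc (-B) (B + 1))
    (isCompact_Icc.prod isCompact_Icc) (by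
      intro m
      rw [hPm]
      refine um_zero _ _ (measurableSet_Icc.prod measurableSet_Icc).compl fun x hx hcon => ?_
      exact hcon ⟨abs_le.1 (hZB m x hx), hιB m x hx⟩)
  have hint : ∀ g : ℝ × ℝ → ℝ, Continuous g → ∀ K : ℝ, (∀ p, |g p| ≤ K) →
      Tendsto (fun i => av (Z (φ i)) (fun x => g (x, ι (φ i) x))) atTop
        (𝓝 (∫ p, g p ∂(π : Measure (ℝ × ℝ)))) := by
    intro g hg K hK
    have h1 := tendsto_int hlim g hg hK
    refine h1.congr fun i => ?_
    rw [hPm, um_integral _ _ _ hg.stronglyMeasurable]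
  have hπ : IsProbabilityMeasure (π : Measure (ℝ × ℝ)) := π.2
  have hm1 : IsProbabilityMeasure ((π : Measure (ℝ × ℝ)).map Prod.fst) :=
    Measure.isProbabilityMeasure_map measurable_fst.aemeasurable
  have hm2 : IsProbabilityMeasure ((π : Measure (ℝ × ℝ)).map Prod.snd) :=
    Measure.isProbabilityMeasure_map measurable_snd.aemeasurable
  -- null open sets
  have hnull : ∀ U : Set (ℝ × ℝ), IsOpen U →
      (∀ N, ∃ i ≥ N, ∀ x ∈ Z (φ i), (x, ι (φ i) x) ∉ U) → (π : Measure (ℝ × ℝ)) U = 0 := by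
    intro U hU hN
    have h1 := ProbabilityMeasure.le_liminf_measure_open_of_tendsto hlim hU
    have h2 : ∃ᶠ i in atTop, (P (φ i) : Measure (ℝ × ℝ)) U ≤ 0 := by
      rw [frequently_atTop]
      intro N
      obtain ⟨i, hi, hx⟩ := hN N
      refine ⟨i, hi, ?_⟩
      rw [hPm]
      exact (um_zero _ _ hU.measurableSet hx).le
    have h3 : liminf (fun i => (P (φ i) : Measure (ℝ × ℝ)) U) atTop ≤ 0 :=
      liminf_le_of_frequently_le h2
    exact le_antisymm (h1.trans h3) zero_le
  refine ⟨π, hπ, ?_, ?_, ?_⟩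
  · refine meas_eq fun g hg hB => ?_
    obtain ⟨K, hK⟩ := hB
    rw [integral_map measurable_fst.aemeasurable hg.aestronglyMeasurable]
    have h1 := hint (fun p => g p.1) (hg.comp continuous_fst) K (fun p => hK p.1)
    have h2 := (hLμ g hg).comp hφ.tendsto_atTop
    exact tendsto_nhds_unique h1 h2
  · intro S hS hS0
    have hC1 : (0:ℝ) < C0 + 1 := by linarith
    set ρ : Measure ℝ := ENNReal.ofReal (C0 / (C0 + 1)) • ν +
      ENNReal.ofReal (1 / (C0 + 1)) • Measure.dirac (B + 1) with hρ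
    have hρp : IsProbabilityMeasure ρ := by
      constructor
      rw [hρ, Measure.add_apply, Measure.smul_apply, Measure.smul_apply, measure_univ,
        measure_univ, smul_eq_mul, smul_eq_mul, mul_one, mul_one,
        ← ENNReal.ofReal_add (by positivity) (by positivity)]
      rw [← add_div, div_self hC1.ne', ENNReal.ofReal_one]
    have hkey : ∀ T : Set ℝ, MeasurableSet T →
        ((π : Measure (ℝ × ℝ)).map Prod.snd) T ≤ ENNReal.ofReal (C0 + 1) * ρ T := by
      intro T hT
      refine meas_le hC1.le (fun g hg h01 => ?_) hT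
      rw [integral_map measurable_snd.aemeasurable hg.aestronglyMeasurable]
      have hK : ∀ x, |g x| ≤ 1 := fun x => by rw [abs_of_nonneg (h01 x).1]; exact (h01 x).2
      have hi1 : Integrable g ν :=
        Integrable.of_bound hg.aestronglyMeasurable 1 (Eventually.of_forall fun x => by
          rw [Real.norm_eq_abs]; exact hK x)
      have hi2 : Integrable g (Measure.dirac (B + 1)) :=
        Integrable.of_bound hg.aestronglyMeasurable 1 (Eventually.of_forall fun x => by
          rw [Real.norm_eq_abs]; exact hK x)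
      have e1 : (C0 + 1) * ∫ x, g x ∂ρ = C0 * ∫ x, g x ∂ν + g (B + 1) := by
        rw [hρ, integral_add_measure (hi1.smul_measure ENNReal.ofReal_ne_top)
          (hi2.smul_measure ENNReal.ofReal_ne_top), integral_smul_measure, integral_smul_measure,
          integral_dirac, ENNReal.toReal_ofReal (by positivity),
          ENNReal.toReal_ofReal (by positivity), smul_eq_mul, smul_eq_mul]
        field_simp
      rw [e1]
      have h1 := hint (fun p => g p.2) (hg.comp continuous_snd) 1 (fun p => hK p.2)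
      have h2 := (((hLν g hg).comp hφ.tendsto_atTop).const_mul C0).add_const (g (B + 1))
      refine le_of_tendsto_of_tendsto' h1 h2 fun i => ?_
      show av (Z (φ i)) (fun x => g (ι (φ i) x)) ≤ C0 * av (W (φ i)) g + g (B + 1)
      set m := φ i
      unfold av
      have hZc : (0:ℝ) < (Z m).card := by exact_mod_cast Finset.card_pos.2 (hZ m)
      have hgB : 0 ≤ g (B + 1) := (h01 _).1
      have hsplit : ∑ x ∈ Z m, g (ι m x) ≤ ∑ w ∈ W m, g w + (Z m).card * g (B + 1) := by
        rw [← Finset.sum_filter_add_sum_filter_not (Z m) (fun x => |x - E0| < η)]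
        refine add_le_add ?_ ?_
        · have hinj : Set.InjOn (ι m) ((Z m).filter (fun x => |x - E0| < η) : Finset ℝ) := by
            intro x hx y hy hxy
            rw [Finset.mem_coe, Finset.mem_filter] at hx hy
            rw [hι1 m x hx.2, hι1 m y hy.2] at hxy
            have := hlip m x hx.1 hx.2 y hy.1 hy.2
            rw [hxy, sub_self, abs_zero, mul_zero] at this
            have := abs_nonpos_iff.1 this
            linarith
          rw [← Finset.sum_image (f := g) hinj]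
          refine Finset.sum_le_sum_of_subset_of_nonneg ?_ (fun w _ _ => (h01 w).1)
          intro w hw
          obtain ⟨x, hx, rfl⟩ := Finset.mem_image.1 hw
          rw [Finset.mem_filter] at hx
          rw [hι1 m x hx.2]
          exact hh m x hx.1 hx.2
        · calc ∑ x ∈ (Z m).filter (fun x => ¬ |x - E0| < η), g (ι m x)
              = ∑ x ∈ (Z m).filter (fun x => ¬ |x - E0| < η), g (B + 1) := by
                refine Finset.sum_congr rfl fun x hx => ?_
                rw [Finset.mem_filter] at hx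
                rw [hι2 m x hx.2]
            _ = (((Z m).filter (fun x => ¬ |x - E0| < η)).card : ℝ) * g (B + 1) := by
                rw [Finset.sum_const, nsmul_eq_mul]
            _ ≤ _ := by
                refine mul_le_mul_of_nonneg_right ?_ hgB
                exact_mod_cast Finset.card_filter_le _ _
      have hs0 : 0 ≤ ∑ w ∈ W m, g w := Finset.sum_nonneg fun w _ => (h01 w).1
      rw [div_le_iff₀ hZc]
      refine hsplit.trans ?_
      rw [add_mul, mul_comm (g (B + 1))]
      refine add_le_add ?_ le_rfl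
      rcases Nat.eq_zero_or_pos (W m).card with hw0 | hw0
      · rw [Finset.card_eq_zero.1 hw0]
        simp
      · have hWc : (0:ℝ) < (W m).card := by exact_mod_cast hw0
        have e : C0 * ((∑ w ∈ W m, g w) / (W m).card) * (Z m).card =
            (∑ w ∈ W m, g w) * ((C0 * (Z m).card) / (W m).card) := by ring
        rw [e]
        refine le_mul_of_one_le_right hs0 ?_
        rw [one_le_div hWc]
        exact hcard m
    -- the complement of `S` without the far away point
    have hT : MeasurableSet (Sᶜ \ {B + 1} : Set ℝ) := hS.compl.diff (measurableSet_singleton _)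
    have h1 : (π : Measure (ℝ × ℝ)) (Prod.snd ⁻¹' (Sᶜ \ {B + 1})) = 0 := by
      rw [← Measure.map_apply measurable_snd hT]
      have h2 := hkey _ hT
      have h3 : ρ (Sᶜ \ {B + 1} : Set ℝ) = 0 := by
        rw [hρ, Measure.add_apply, Measure.smul_apply, Measure.smul_apply]
        rw [measure_mono_null sdiff_subset hS0, Measure.dirac_apply' _ hT,
          indicator_of_notMem (by simp)]
        simp
      rw [h3, mul_zero] at h2
      exact le_antisymm h2 zero_le
    have h4 : (π : Measure (ℝ × ℝ)) {p | |p.1 - E0| < η ∧ B < p.2} = 0 := by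
      refine hnull _ ?_ ?_
      · exact (isOpen_lt ((continuous_fst.sub continuous_const).abs) continuous_const).inter
          (isOpen_lt continuous_const continuous_snd)
      · intro N
        refine ⟨N, le_rfl, fun x hx hcon => ?_⟩
        have hc1 : |x - E0| < η := hcon.1
        have hc2 : B < ι (φ N) x := hcon.2
        rw [hι1 _ _ hc1] at hc2
        have := (abs_le.1 (hWB _ _ (hh _ x hx hc1))).2
        linarith
    refine measure_mono_null ?_ (measure_union_null h1 h4)
    rintro p ⟨hp1, hp2⟩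
    by_cases hc : B < p.2
    · exact Or.inr ⟨hp1, hc⟩
    · left
      refine ⟨hp2, ?_⟩
      intro hcon
      have : p.2 = B + 1 := hcon
      linarith
  · refine ⟨{p | ∀ ε > 0, ∃ N, ∀ i ≥ N, ∃ x ∈ Z (φ i), |x - p.1| < ε ∧ |ι (φ i) x - p.2| < ε},
      ?_, ?_⟩
    · refine measure_null_of_locally_null _ fun p hp => ?_
      have hp' : ∃ ε > 0, ∀ N, ∃ i ≥ N, ∀ x ∈ Z (φ i), |x - p.1| < ε → ε ≤ |ι (φ i) x - p.2| := by
        by_contra hcon
        refine hp fun ε hε => ?_
        by_contra hc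
        refine hcon ⟨ε, hε, fun N => ?_⟩
        by_contra hc2
        refine hc ⟨N, fun i hi => ?_⟩
        by_contra hc3
        refine hc2 ⟨i, hi, fun x hx hx1 => ?_⟩
        by_contra hc4
        exact hc3 ⟨x, hx, hx1, not_le.1 hc4⟩
      obtain ⟨ε, hε, hN⟩ := hp'
      refine ⟨{q | |q.1 - p.1| < ε ∧ |q.2 - p.2| < ε}, ?_, ?_⟩
      · refine mem_nhdsWithin_of_mem_nhds (IsOpen.mem_nhds ?_ ?_)
        · exact (isOpen_lt ((continuous_fst.sub continuous_const).abs) continuous_const).inter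
            (isOpen_lt ((continuous_snd.sub continuous_const).abs) continuous_const)
        · simp [hε]
      · refine hnull _ ?_ ?_
        · exact (isOpen_lt ((continuous_fst.sub continuous_const).abs) continuous_const).inter
            (isOpen_lt ((continuous_snd.sub continuous_const).abs) continuous_const)
        · intro N
          obtain ⟨i, hi, hx⟩ := hN N
          refine ⟨i, hi, fun x hxZ hcon => ?_⟩
          exact absurd hcon.2 (not_lt.2 (hx x hxZ hcon.1))
    · intro p hp p' hp' hpE hpE'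
      have hC : ∀ ε > 0, |p.1 - p'.1| ≤ (|C| * 2 + 2) * ε + C * |p.2 - p'.2| := by
        intro ε hε
        set ε1 := min ε (min (η - |p.1 - E0|) (η - |p'.1 - E0|)) with hε1
        have hε1p : 0 < ε1 := lt_min hε (lt_min (by linarith) (by linarith))
        have b1 : ε1 ≤ ε := min_le_left _ _
        have b2 : ε1 ≤ η - |p.1 - E0| := (min_le_right _ _).trans (min_le_left _ _)
        have b3 : ε1 ≤ η - |p'.1 - E0| := (min_le_right _ _).trans (min_le_right _ _)
        obtain ⟨N, hN⟩ := hp ε1 hε1p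
        obtain ⟨N', hN'⟩ := hp' ε1 hε1p
        obtain ⟨x, hx, hx1, hx2⟩ := hN (max N N') (le_max_left _ _)
        obtain ⟨x', hx', hx1', hx2'⟩ := hN' (max N N') (le_max_right _ _)
        set m := φ (max N N')
        have c1 : |x - E0| < η := by
          calc |x - E0| = |(x - p.1) + (p.1 - E0)| := by ring_nf
            _ ≤ |x - p.1| + |p.1 - E0| := abs_add_le _ _
            _ < η := by linarith
        have c2 : |x' - E0| < η := by
          calc |x' - E0| = |(x' - p'.1) + (p'.1 - E0)| := by ring_nf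
            _ ≤ |x' - p'.1| + |p'.1 - E0| := abs_add_le _ _
            _ < η := by linarith
        rw [hι1 m x c1] at hx2
        rw [hι1 m x' c2] at hx2'
        have hl := hlip m x hx c1 x' hx' c2
        have d1 : |p.1 - p'.1| ≤ |x - x'| + 2 * ε := by
          calc |p.1 - p'.1| = |(x - x') + ((x' - p'.1) - (x - p.1))| := by ring_nf
            _ ≤ |x - x'| + |(x' - p'.1) - (x - p.1)| := abs_add_le _ _
            _ ≤ |x - x'| + (|x' - p'.1| + |x - p.1|) := by
                have := abs_sub (x' - p'.1) (x - p.1)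
                linarith
            _ ≤ _ := by linarith
        have d2 : |(h m x - h m x') - (p.2 - p'.2)| ≤ 2 * ε := by
          calc |(h m x - h m x') - (p.2 - p'.2)| = |(h m x - p.2) - (h m x' - p'.2)| := by ring_nf
            _ ≤ |h m x - p.2| + |h m x' - p'.2| := abs_sub _ _
            _ ≤ _ := by linarith
        have d3 : |(|h m x - h m x'| - |p.2 - p'.2|)| ≤ 2 * ε :=
          (abs_abs_sub_abs_le _ _).trans d2
        have d4 : C * |h m x - h m x'| ≤ C * |p.2 - p'.2| + |C| * (2 * ε) := by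
          have : C * (|h m x - h m x'| - |p.2 - p'.2|) ≤ |C| * (2 * ε) := by
            calc C * (|h m x - h m x'| - |p.2 - p'.2|)
                ≤ |C * (|h m x - h m x'| - |p.2 - p'.2|)| := le_abs_self _
              _ = |C| * |(|h m x - h m x'| - |p.2 - p'.2|)| := abs_mul _ _
              _ ≤ _ := mul_le_mul_of_nonneg_left d3 (abs_nonneg _)
          linarith
        linarith
      have hlim0 : Tendsto (fun ε : ℝ => (|C| * 2 + 2) * ε + C * |p.2 - p'.2|) (𝓝[>] 0)
          (𝓝 ((|C| * 2 + 2) * 0 + C * |p.2 - p'.2|)) := by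
        refine Tendsto.mono_left ?_ nhdsWithin_le_nhds
        exact (continuous_const.mul continuous_id |>.add continuous_const).tendsto 0
      rw [mul_zero, zero_add] at hlim0
      refine ge_of_tendsto hlim0 ?_
      filter_upwards [self_mem_nhdsWithin] with ε hε
      exact hC ε hε

/-- the local statement -/
lemma loc_case {Z W : ℕ → Finset ℝ} {μ ν : Measure ℝ} {B C0 C E0 η : ℝ}
    (hμ : IsProbabilityMeasure μ) (hν : IsProbabilityMeasure ν) (hZ : ∀ m, (Z m).Nonempty)
    (hZB : ∀ m, ∀ x ∈ Z m, |x| ≤ B) (hWB : ∀ m, ∀ x ∈ W m, |x| ≤ B)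
    (hcard : ∀ m, ((W m).card : ℝ) ≤ C0 * (Z m).card) (hLμ : Lim Z μ) (hLν : Lim W ν)
    (h : ℕ → ℝ → ℝ) (hh : ∀ m, ∀ s ∈ Z m, |s - E0| < η → h m s ∈ W m)
    (hlip : ∀ m, ∀ s ∈ Z m, |s - E0| < η → ∀ s' ∈ Z m, |s' - E0| < η →
      |s - s'| ≤ C * |h m s - h m s'|)
    {S : Set ℝ} (hS : MeasurableSet S) (hS0 : ν Sᶜ = 0) {r : ℝ≥0} (hr : dimH S < r) :
    ∃ t : Set ℝ, MeasurableSet t ∧ dimH t ≤ r ∧ μ (Ioo (E0 - η) (E0 + η) \ t) = 0 := by
  classical
  obtain ⟨π, hπ, hπ1, hπ2, R, hR, hRL⟩ := coup hμ hν hZ hZB hWB hcard hLμ hLν h hh hlip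
  set R' : Set (ℝ × ℝ) := R ∩ {p | |p.1 - E0| < η} ∩ Prod.snd ⁻¹' S with hR'
  set A : Set ℝ := Prod.snd '' R' with hA
  set B' : Set ℝ := Prod.fst '' R' with hB'
  have hAS : A ⊆ S := by
    rintro _ ⟨p, hp, rfl⟩
    exact hp.2
  have hinj : ∀ p ∈ R', ∀ p' ∈ R', p.2 = p'.2 → p.1 = p'.1 := by
    intro p hp p' hp' he
    have := hRL p hp.1.1 p' hp'.1.1 hp.1.2 hp'.1.2
    rw [he, sub_self, abs_zero, mul_zero] at this
    have := abs_nonpos_iff.1 this
    linarith
  have hg : ∃ g : ℝ → ℝ, ∀ p ∈ R', g p.2 = p.1 := by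
    have : ∀ y : ℝ, ∃ x : ℝ, ∀ p ∈ R', p.2 = y → p.1 = x := by
      intro y
      by_cases hc : ∃ p ∈ R', p.2 = y
      · obtain ⟨p, hp, hpy⟩ := hc
        exact ⟨p.1, fun p' hp' h' => hinj p' hp' p hp (h'.trans hpy.symm)⟩
      · exact ⟨0, fun p hp h' => absurd ⟨p, hp, h'⟩ hc⟩
    choose g hg using this
    exact ⟨g, fun p hp => (hg p.2 p hp rfl).symm⟩
  obtain ⟨g, hg⟩ := hg
  have hgA : g '' A = B' := by
    rw [hA, hB', image_image]
    exact image_congr fun p hp => hg p hp
  have hdim : dimH B' ≤ dimH S := by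
    rw [← hgA]
    refine le_trans (LipschitzOnWith.dimH_image_le (K := Real.toNNReal C) (f := g) (s := A) ?_)
      (dimH_mono hAS)
    rw [lipschitzOnWith_iff_dist_le_mul]
    rintro _ ⟨p, hp, rfl⟩ _ ⟨p', hp', rfl⟩
    rw [hg p hp, hg p' hp', Real.dist_eq, Real.dist_eq]
    exact (hRL p hp.1.1 p' hp'.1.1 hp.1.2 hp'.1.2).trans
      (mul_le_mul_of_nonneg_right (Real.le_coe_toNNReal C) (abs_nonneg _))
  have hz : μH[(r : ℝ)] B' = 0 := hausdorffMeasure_of_dimH_lt (hdim.trans_lt hr)
  refine ⟨toMeasurable (μH[(r : ℝ)]) B', measurableSet_toMeasurable _ _, ?_, ?_⟩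
  · apply dimH_le_of_hausdorffMeasure_ne_top
    rw [measure_toMeasurable, hz]
    exact ENNReal.zero_ne_top
  · have htm : MeasurableSet (toMeasurable (μH[(r : ℝ)]) B') := measurableSet_toMeasurable _ _
    rw [← hπ1, Measure.map_apply measurable_fst (measurableSet_Ioo.diff htm)]
    refine measure_mono_null ?_ (measure_union_null hR (hπ2 S hS hS0))
    rintro p ⟨hp1, hp2⟩
    by_contra hcon
    rw [mem_union, not_or, notMem_compl_iff] at hcon
    have hpE : |p.1 - E0| < η := abs_lt.2 ⟨by linarith [hp1.1], by linarith [hp1.2]⟩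
    have hpS : p.2 ∈ S := by
      by_contra hc
      exact hcon.2 ⟨hpE, hc⟩
    exact hp2 (subset_toMeasurable _ _ ⟨p, ⟨⟨hcon.1, hpE⟩, hpS⟩, rfl⟩)

theorem tGMeas : GMeas := by
  intro Z W μ ν B C0 hμ hν hZ hZB hWB hcard hLμ hLν hloc
  refine le_iInf fun S => le_iInf fun hS => le_iInf fun hS0 => ?_
  refine le_of_forall_gt_imp_ge_of_dense fun s hs => ?_
  rcases eq_or_ne s ⊤ with rfl | hst
  · exact le_top
  lift s to ℝ≥0 using hst
  have key : ∀ E0 : ℝ, ∃ (η : ℝ) (t : Set ℝ), 0 < η ∧ MeasurableSet t ∧ dimH t ≤ s ∧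
      μ (Ioo (E0 - η) (E0 + η) \ t) = 0 := by
    intro E0
    rcases hloc E0 with ⟨η, hη, M0, h⟩ | ⟨C, hC, η, hη, M0, h⟩
    · refine ⟨η, ∅, hη, MeasurableSet.empty, by simp, ?_⟩
      rw [sdiff_empty]
      exact null_case hμ hLμ hη h
    · have h' : ∀ m : ℕ, ∃ f : ℝ → ℝ, ∀ s ∈ Z (m + M0), |s - E0| < η →
          f s ∈ W (m + M0) ∧ ∀ s' ∈ Z (m + M0), |s' - E0| < η → |s - s'| ≤ C * |f s - f s'| :=
        fun m => h (m + M0) (Nat.le_add_left _ _)
      choose f hf using h'
      obtain ⟨t, ht1, ht2, ht3⟩ := loc_case (Z := fun m => Z (m + M0)) (W := fun m => W (m + M0))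
        (B := B) (C0 := C0) (C := C) (E0 := E0) (η := η) hμ hν (fun m => hZ _)
        (fun m => hZB _) (fun m => hWB _) (fun m => hcard _)
        (fun g hg => (hLμ g hg).comp (tendsto_add_atTop_nat M0))
        (fun g hg => (hLν g hg).comp (tendsto_add_atTop_nat M0)) f
        (fun m s hs hsE => (hf m s hs hsE).1)
        (fun m s hs hsE s' hs' hsE' => (hf m s hs hsE).2 s' hs' hsE') hS hS0 hs
      exact ⟨η, t, hη, ht1, ht2, ht3⟩
  choose η t hη ht1 ht2 ht3 using key
  obtain ⟨Q, hQ, hcov⟩ := TopologicalSpace.countable_cover_nhds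
    (f := fun E0 : ℝ => Ioo (E0 - η E0) (E0 + η E0))
    (fun E0 => Ioo_mem_nhds (by linarith [hη E0]) (by linarith [hη E0]))
  have hTm : MeasurableSet (⋃ i ∈ Q, t i) := MeasurableSet.biUnion hQ fun i _ => ht1 i
  have hTd : dimH (⋃ i ∈ Q, t i) ≤ s := by
    rw [dimH_bUnion hQ]
    exact iSup₂_le fun i _ => ht2 i
  have hT0 : μ (⋃ i ∈ Q, t i)ᶜ = 0 := by
    refine measure_mono_null (t := ⋃ i ∈ Q, (Ioo (i - η i) (i + η i) \ t i)) ?_ ?_
    · intro x hx
      have hx1 : x ∈ ⋃ i ∈ Q, Ioo (i - η i) (i + η i) := by rw [hcov]; trivial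
      obtain ⟨i, hi, hxi⟩ := mem_iUnion₂.1 hx1
      refine mem_iUnion₂.2 ⟨i, hi, hxi, fun hxt => hx (mem_iUnion₂.2 ⟨i, hi, hxt⟩)⟩
    · exact (measure_biUnion_null_iff hQ).2 fun i _ => ht3 i
  calc upDim μ ≤ dimH (⋃ i ∈ Q, t i) :=
        iInf_le_of_le (⋃ i ∈ Q, t i) (iInf_le_of_le hTm (iInf_le_of_le hT0 le_rfl))
    _ ≤ s := hTd

end Pool.Agent.H21.GiMeas
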