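import Pool.Agent.H770.GS.UQ

/-!
# Project UQ (helper770), part UQ11: strict improvement
-/

set_option autoImplicit false

open MeasureTheory Set intervalIntegral Filter Topology

namespace Pool.Agent.H21.UQ

open Pool.Agent.H770.GS Pool.Agent.Helper82.GC

theorem uq11 : S_strict := by
  intro hSP hgain hlow hdecay hwin hmix hstep hpos hfour hJJ n r x y S C hr hr2 hy hyx hS hC hex
    hlen hsq
  set R : List ℝ := S ++ dup C with hR
  have hRnn : ∀ z ∈ R, 0 ≤ z := by
    intro z hz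
    rcases List.mem_append.1 hz with h | h
    · exact (hS z h).1
    · exact hC z (mem_dup.1 h)
  obtain ⟨v₂, hv₂, hg⟩ := hgain hfour hJJ r x y hr hy hyx
  obtain ⟨δ₀, hδ₀, c₁, hc₁, hlo⟩ := hlow r R hr hRnn hex
  set δ : ℝ := min δ₀ (v₂ / 2) with hδdef
  have hδ : 0 < δ := lt_min hδ₀ (by linarith)
  have hδv : δ < v₂ := lt_of_le_of_lt (min_le_right _ _) (by linarith)
  obtain ⟨c, hc, hcc⟩ := hg δ hδ hδv
  set Sg : ℝ := (R.map fun x => x ^ 2).sum with hSg
  have hSg0 : 0 ≤ Sg := by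
    rw [hSg]
    apply List.sum_nonneg
    intro z hz
    obtain ⟨w, _, rfl⟩ := List.mem_map.1 hz
    positivity
  set Z : ℝ := Sg + 1 with hZ
  have hZ0 : 0 < Z := by linarith
  set q : ℝ := Real.exp (-(v₂ ^ 2 - δ ^ 2) / (2 * Z)) with hq
  have ha : 0 < v₂ ^ 2 - δ ^ 2 := by nlinarith
  have hq1 : q < 1 := by
    rw [hq]
    apply Real.exp_lt_one_iff.mpr
    apply div_neg_of_neg_of_pos (by linarith) (by linarith)
  have hc₂ : 0 < c / Z * (c₁ * (1 - q)) := by
    have : 0 < 1 - q := by linarith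
    positivity
  have hkey : ∀ τ : ℝ, 0 < τ → τ ≤ 1 →
      dens r (x :: y :: R) (gs τ) 0 + c / Z * (c₁ * (1 - q)) ≤
        dens r (qm x y :: qm x y :: R) (gs τ) 0 := by
    intro τ hτ hτ1
    have hρ : 0 ≤ y * r := mul_nonneg hy hr.le
    obtain ⟨hk0, rest, hrest, hrest0, hid⟩ := hSP hwin hmix hstep hpos r (y * r) τ S C hr hr2 hτ
      hρ (fun z hz => ⟨(hS z hz).1, mul_le_mul_of_nonneg_right (hS z hz).2 hr.le⟩) hC
    have hζ0 : 0 < Sg + τ ^ 2 := by positivity
    have hζZ : Sg + τ ^ 2 ≤ Z := by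
      have : τ ^ 2 ≤ 1 := by nlinarith
      linarith
    have hP : P (y * r) (dens r R (kg τ)) := by
      rw [hR, dens_append]
      refine dens_P hr ?_ S fun z hz => ⟨(hS z hz).1, mul_le_mul_of_nonneg_right (hS z hz).2 hr.le⟩
      exact P.mono (dens_dup_P hr (kg_P τ) C hC) hρ
    have hder : ∀ v, HasDerivAt (dens r R (gs τ)) (-dens r R (kg τ) v) v :=
      dens_deriv hr (gs_deriv τ) (kg_cont τ) R
    have hev : ∀ v, dens r R (gs τ) (-v) = dens r R (gs τ) v := dens_even (gs_even τ) R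
    have h1 := hcc (y * r) (Sg + τ ^ 2) (dens r R (gs τ)) (dens r R (kg τ)) rest le_rfl hζ0 hP
      hrest hder hev hk0 hid
    have h2 : dens r R (gs τ) v₂ ≤ dens r R (gs τ) δ *
        Real.exp (-(v₂ ^ 2 - δ ^ 2) / (2 * (Sg + τ ^ 2))) := by
      refine hdecay (Sg + τ ^ 2) (dens r R (gs τ)) (dens r R (kg τ)) hζ0 hder ?_ δ v₂ hδ.le hδv.le
      intro v hv
      have e := hid v
      have e2 := hrest0 v hv
      rw [e]
      linarith
    have hgδ : c₁ ≤ dens r R (gs τ) δ := by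
      refine hlo τ hτ hτ1 δ ?_
      rw [abs_of_pos hδ]
      exact min_le_left _ _
    have hqle : Real.exp (-(v₂ ^ 2 - δ ^ 2) / (2 * (Sg + τ ^ 2))) ≤ q := by
      rw [hq]
      apply Real.exp_le_exp.2
      rw [neg_div, neg_div]
      apply neg_le_neg
      exact div_le_div_of_nonneg_left ha.le (by linarith) (by linarith)
    have hgδ0 : 0 ≤ dens r R (gs τ) δ := by linarith
    have h3 : c₁ * (1 - q) ≤ dens r R (gs τ) δ - dens r R (gs τ) v₂ := by
      have e1 : dens r R (gs τ) v₂ ≤ dens r R (gs τ) δ * q :=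
        h2.trans (mul_le_mul_of_nonneg_left hqle hgδ0)
      have e2 : c₁ * (1 - q) ≤ dens r R (gs τ) δ * (1 - q) :=
        mul_le_mul_of_nonneg_right hgδ (by linarith)
      linarith
    have h4 : c / Z ≤ c / (Sg + τ ^ 2) := div_le_div_of_nonneg_left hc.le hζ0 hζZ
    have h5 : c / Z * (c₁ * (1 - q)) ≤
        c / (Sg + τ ^ 2) * (dens r R (gs τ) δ - dens r R (gs τ) v₂) := by
      have e1 : 0 ≤ c₁ * (1 - q) := mul_nonneg hc₁.le (by linarith)
      exact mul_le_mul h4 h3 e1 (by positivity)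
    simp only [dens_cons]
    linarith
  have hlen' : (qm x y :: qm x y :: R).length = n := by
    rw [← hlen]
    rfl
  have hsq' : ((qm x y :: qm x y :: R).map fun x => x ^ 2).sum = 1 := by
    rw [← hsq]
    simp only [List.map_cons, List.sum_cons, qm_sq]
    ring
  have t1 := dens_tendsto hr (vec n (x :: y :: R)) (vec_norm hlen hsq)
  have t2 := dens_tendsto hr (vec n (qm x y :: qm x y :: R)) (vec_norm hlen' hsq')
  rw [ofFn_vec hlen] at t1
  rw [ofFn_vec hlen'] at t2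
  have t3 := t1.add_const (c / Z * (c₁ * (1 - q)))
  have hle : Asl r (vec n (x :: y :: R)) 0 + c / Z * (c₁ * (1 - q)) ≤
      Asl r (vec n (qm x y :: qm x y :: R)) 0 := by
    refine le_of_tendsto_of_tendsto t3 t2 ?_
    have h6 : Ioc (0 : ℝ) 1 ∈ nhdsWithin (0 : ℝ) (Ioi 0) := Ioc_mem_nhdsGT (by norm_num)
    filter_upwards [h6] with τ hτ
    exact hkey τ hτ.1 hτ.2
  linarith

end Pool.Agent.H21.UQ
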